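import Pool.Agent.D0H56.MD.Defs2

/-! Project MD (helper56), modules COMPA and COMPB (helper65). -/

set_option autoImplicit false

open Module Polynomial NumberField Pool.Agent.H225R3.Marg Pool.Agent.D0H56.MD

namespace Pool.Agent.D0H65.MD

theorem t_COMPA : S_COMPA := by
  intro k _ _ S hS σ₁
  have hex : ∃ τ : k ≃+* k, σ₁.comp (τ : k →+* k) ∉ S := by
    by_contra hcon
    push Not at hcon
    have hfin : Finite (k ≃+* k) := Nat.finite_of_card_ne_zero (by omega)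
    have h1 : Nat.card (k ≃+* k) ≤ Nat.card S := by
      refine Nat.card_le_card_of_injective (fun τ => (⟨σ₁.comp (τ : k →+* k), hcon τ⟩ : S)) ?_
      intro τ τ' h
      have h2 : σ₁.comp (τ : k →+* k) = σ₁.comp (τ' : k →+* k) := congrArg Subtype.val h
      ext x
      exact σ₁.injective (by simpa using congrArg (fun f => f x) h2)
    have h2 : Nat.card S = S.card := by rw [Nat.card_eq_fintype_card, Fintype.card_coe]
    omega
  obtain ⟨τ, hτ⟩ := hex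
  refine ⟨_, hτ, ?_⟩
  have h1 : Set.range (σ₁.comp (τ : k →+* k)) = Set.range σ₁ := by
    ext z
    constructor
    · rintro ⟨w, rfl⟩
      exact ⟨τ w, rfl⟩
    · rintro ⟨w, rfl⟩
      exact ⟨τ.symm w, by simp⟩
  unfold cdeg
  rw [h1, Set.union_self]
  have h2 : Set.range σ₁ = (σ₁.toRatAlgHom.fieldRange : Set ℂ) := by
    rw [AlgHom.coe_fieldRange]
    rfl
  rw [h2, IntermediateField.adjoin_self]
  exact (AlgEquiv.ofInjectiveField σ₁.toRatAlgHom).toLinearEquiv.finrank_eq.symm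

theorem t_COMPB : S_COMPB := by
  intro k _ _ k₀ S hS σ₁
  let alg : Algebra k₀ ℂ := (σ₁.comp (algebraMap k₀ k)).toAlgebra
  have : IsScalarTower ℚ k₀ ℂ := IsScalarTower.of_algebraMap_eq fun q => by
    show (algebraMap ℚ ℂ) q = σ₁ (algebraMap k₀ k (algebraMap ℚ k₀ q))
    simp
  have hcard : Nat.card (k →ₐ[k₀] ℂ) = finrank k₀ k := by
    rw [Nat.card_eq_fintype_card]
    exact AlgHom.card k₀ k ℂ
  have hex : ∃ ψ : k →ₐ[k₀] ℂ, (ψ : k →+* ℂ) ∉ S := by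
    by_contra hcon
    push Not at hcon
    have h1 : Nat.card (k →ₐ[k₀] ℂ) ≤ Nat.card S := by
      refine Nat.card_le_card_of_injective (fun ψ => (⟨(ψ : k →+* ℂ), hcon ψ⟩ : S)) ?_
      intro ψ ψ' h
      have h2 : (ψ : k →+* ℂ) = (ψ' : k →+* ℂ) := congrArg Subtype.val h
      exact AlgHom.coe_ringHom_injective h2
    rw [hcard, Nat.card_eq_fintype_card, Fintype.card_coe] at h1
    omega
  obtain ⟨ψ, hψ⟩ := hex
  refine ⟨_, hψ, ?_⟩
  obtain ⟨ψ₁, hψ₁⟩ : ∃ ψ₁ : k →ₐ[k₀] ℂ, (ψ₁ : k →+* ℂ) = σ₁ := ⟨{ σ₁ with commutes' := fun r => rfl }, rfl⟩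
  have f1 : finrank k₀ ψ₁.fieldRange = finrank k₀ k :=
    (AlgEquiv.ofInjectiveField ψ₁).toLinearEquiv.finrank_eq.symm
  have f2 : finrank k₀ ψ.fieldRange = finrank k₀ k :=
    (AlgEquiv.ofInjectiveField ψ).toLinearEquiv.finrank_eq.symm
  have : FiniteDimensional k₀ ψ₁.fieldRange :=
    LinearEquiv.finiteDimensional (AlgEquiv.ofInjectiveField ψ₁).toLinearEquiv
  have : FiniteDimensional k₀ ψ.fieldRange :=
    LinearEquiv.finiteDimensional (AlgEquiv.ofInjectiveField ψ).toLinearEquiv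
  have f3 : finrank k₀ ↥(ψ₁.fieldRange ⊔ ψ.fieldRange) ≤ finrank k₀ k * finrank k₀ k := by
    have := IntermediateField.finrank_sup_le ψ₁.fieldRange ψ.fieldRange
    rwa [f1, f2] at this
  have : FiniteDimensional k₀ ↥(ψ₁.fieldRange ⊔ ψ.fieldRange) := inferInstance
  have : FiniteDimensional ℚ ↥(ψ₁.fieldRange ⊔ ψ.fieldRange) :=
    FiniteDimensional.trans ℚ k₀ ↥(ψ₁.fieldRange ⊔ ψ.fieldRange)
  have f4 : finrank ℚ ↥(ψ₁.fieldRange ⊔ ψ.fieldRange) ≤ finrank k₀ k * finrank ℚ k := by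
    rw [← Module.finrank_mul_finrank ℚ k₀ ↥(ψ₁.fieldRange ⊔ ψ.fieldRange),
      ← Module.finrank_mul_finrank ℚ k₀ k]
    calc finrank ℚ k₀ * finrank k₀ ↥(ψ₁.fieldRange ⊔ ψ.fieldRange)
        ≤ finrank ℚ k₀ * (finrank k₀ k * finrank k₀ k) := Nat.mul_le_mul_left _ f3
      _ = _ := by ring
  refine le_trans ?_ f4
  unfold cdeg
  have hle : IntermediateField.adjoin ℚ (Set.range σ₁ ∪ Set.range (ψ : k →+* ℂ))
      ≤ (ψ₁.fieldRange ⊔ ψ.fieldRange).restrictScalars ℚ := by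
    rw [IntermediateField.adjoin_le_iff]
    rintro z (⟨w, rfl⟩ | ⟨w, rfl⟩)
    · have h1 : ψ₁ w ∈ ψ₁.fieldRange ⊔ ψ.fieldRange :=
        (le_sup_left : ψ₁.fieldRange ≤ _) ⟨w, rfl⟩
      have h2 : ψ₁ w = σ₁ w := by rw [← hψ₁]; rfl
      rw [h2] at h1
      exact h1
    · exact (le_sup_right : ψ.fieldRange ≤ ψ₁.fieldRange ⊔ ψ.fieldRange) ⟨w, rfl⟩
  have h3 : (IntermediateField.adjoin ℚ (Set.range σ₁ ∪ Set.range (ψ : k →+* ℂ))).toSubalgebra.toSubmodule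
      ≤ ((ψ₁.fieldRange ⊔ ψ.fieldRange).restrictScalars ℚ).toSubalgebra.toSubmodule := hle
  have : FiniteDimensional ℚ ↥(((ψ₁.fieldRange ⊔ ψ.fieldRange).restrictScalars ℚ).toSubalgebra.toSubmodule) :=
    inferInstanceAs (FiniteDimensional ℚ ↥(ψ₁.fieldRange ⊔ ψ.fieldRange))
  exact Submodule.finrank_mono h3

end Pool.Agent.D0H65.MD
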