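import Pool.Agent.D0H56.MD.Defs2

/-! Project MD (helper56), modules DEG and SMALL (helper65). -/

set_option autoImplicit false

open Module Polynomial NumberField Pool.Agent.H225R3.Marg Pool.Agent.D0H56.MD

namespace Pool.Agent.D0H65.MD

/-- The degree of an eigenvalue over a field containing the conjugate of `k`. -/
theorem deg_le {k : Type} [Field k] [NumberField k] {n : ℕ} (A : Matrix (Fin n) (Fin n) (𝓞 k))
    (σ : k →+* ℂ) (x : ℂ) (M : IntermediateField ℚ ℂ) (hM : ∀ w : k, σ w ∈ M)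
    (hx : ((emb σ).mapMatrix A).charpoly.IsRoot x) :
    IsIntegral M x ∧ (minpoly M x).natDegree ≤ n := by
  obtain ⟨g, hg⟩ : ∃ g : 𝓞 k →+* M, (algebraMap M ℂ).comp g = emb σ :=
    ⟨(emb σ).codRestrict M fun w => hM (algebraMap (𝓞 k) k w), by ext w; rfl⟩
  obtain ⟨P, hP⟩ : ∃ P : M[X], P = A.charpoly.map g := ⟨_, rfl⟩
  have hmon : P.Monic := by rw [hP]; exact A.charpoly_monic.map _
  have hdeg : P.natDegree = n := by
    rw [hP, A.charpoly_monic.natDegree_map, Matrix.charpoly_natDegree_eq_dim, Fintype.card_fin]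
  have h1 : ((emb σ).mapMatrix A).charpoly = A.charpoly.map (emb σ) := by
    rw [← Matrix.charpoly_map]; rfl
  have hroot : aeval x P = 0 := by
    rw [h1, IsRoot.def, ← hg, ← Polynomial.map_map, ← hP] at hx
    rw [aeval_def, ← eval_map]
    exact hx
  refine ⟨⟨P, hmon, hroot⟩, ?_⟩
  rw [← hdeg]
  exact natDegree_le_of_dvd (minpoly.dvd M x hroot) hmon.ne_zero

theorem t_DEG : S_DEG := by
  intro k _ _ n A σ₁ σ₂ x y hx hy
  obtain ⟨M, hM⟩ : ∃ M : IntermediateField ℚ ℂ,
    M = IntermediateField.adjoin ℚ (Set.range σ₁ ∪ Set.range σ₂) := ⟨_, rfl⟩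
  have hM1 : ∀ w : k, σ₁ w ∈ M := fun w => by
    rw [hM]
    exact IntermediateField.subset_adjoin _ _ (Or.inl ⟨w, rfl⟩)
  have hM2 : ∀ w : k, σ₂ w ∈ M := fun w => by
    rw [hM]
    exact IntermediateField.subset_adjoin _ _ (Or.inr ⟨w, rfl⟩)
  have hfd : FiniteDimensional ℚ M := by
    have e : M = σ₁.toRatAlgHom.fieldRange ⊔ σ₂.toRatAlgHom.fieldRange := by
      apply le_antisymm
      · rw [hM, IntermediateField.adjoin_le_iff]
        rintro z (⟨w, rfl⟩ | ⟨w, rfl⟩)
        · exact (le_sup_left : σ₁.toRatAlgHom.fieldRange ≤ _) ⟨w, rfl⟩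
        · exact (le_sup_right : σ₂.toRatAlgHom.fieldRange ≤
            σ₁.toRatAlgHom.fieldRange ⊔ σ₂.toRatAlgHom.fieldRange) ⟨w, rfl⟩
      · refine sup_le ?_ ?_
        · rintro z ⟨w, rfl⟩
          exact hM1 w
        · rintro z ⟨w, rfl⟩
          exact hM2 w
    have f1 : FiniteDimensional ℚ σ₁.toRatAlgHom.fieldRange :=
      LinearEquiv.finiteDimensional (AlgEquiv.ofInjectiveField σ₁.toRatAlgHom).toLinearEquiv
    have f2 : FiniteDimensional ℚ σ₂.toRatAlgHom.fieldRange :=
      LinearEquiv.finiteDimensional (AlgEquiv.ofInjectiveField σ₂.toRatAlgHom).toLinearEquiv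
    rw [e]
    infer_instance
  obtain ⟨ix, dx⟩ := deg_le A σ₁ x M hM1 hx
  obtain ⟨iy, dy⟩ := deg_le A σ₂ y M hM2 hy
  have gx : FiniteDimensional M (IntermediateField.adjoin M {x}) :=
    IntermediateField.adjoin.finiteDimensional ix
  have gy : FiniteDimensional M (IntermediateField.adjoin M {y}) :=
    IntermediateField.adjoin.finiteDimensional iy
  obtain ⟨N, hN⟩ : ∃ N : IntermediateField M ℂ,
    N = IntermediateField.adjoin M {x} ⊔ IntermediateField.adjoin M {y} := ⟨_, rfl⟩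
  have f3 : finrank M N ≤ n * n := by
    have := IntermediateField.finrank_sup_le (IntermediateField.adjoin M {x})
      (IntermediateField.adjoin M {y})
    rw [← hN, IntermediateField.adjoin.finrank ix, IntermediateField.adjoin.finrank iy] at this
    exact this.trans (Nat.mul_le_mul dx dy)
  have g1 : FiniteDimensional M N := by rw [hN]; infer_instance
  have g2 : FiniteDimensional ℚ N := FiniteDimensional.trans ℚ M N
  have f4 : finrank ℚ N ≤ n ^ 2 * finrank ℚ M := by
    rw [← Module.finrank_mul_finrank ℚ M N]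
    calc finrank ℚ M * finrank M N ≤ finrank ℚ M * (n * n) := Nat.mul_le_mul_left _ f3
      _ = _ := by ring
  unfold cdeg
  rw [← hM]
  refine le_trans ?_ f4
  have hle : IntermediateField.adjoin ℚ {x, y} ≤ N.restrictScalars ℚ := by
    rw [IntermediateField.adjoin_le_iff]
    rintro z (rfl | hz)
    · show z ∈ N
      rw [hN]
      exact (le_sup_left : IntermediateField.adjoin M {z} ≤ _)
        (IntermediateField.mem_adjoin_simple_self M z)
    · rw [Set.mem_singleton_iff] at hz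
      rw [hz]
      show y ∈ N
      rw [hN]
      exact (le_sup_right : IntermediateField.adjoin M {y} ≤
        IntermediateField.adjoin M {x} ⊔ IntermediateField.adjoin M {y})
        (IntermediateField.mem_adjoin_simple_self M y)
  have h3 : (IntermediateField.adjoin ℚ {x, y}).toSubalgebra.toSubmodule
      ≤ (N.restrictScalars ℚ).toSubalgebra.toSubmodule := hle
  have : FiniteDimensional ℚ ↥((N.restrictScalars ℚ).toSubalgebra.toSubmodule) :=
    inferInstanceAs (FiniteDimensional ℚ N)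
  exact Submodule.finrank_mono h3

theorem t_SMALL : S_SMALL := by
  intro d₀
  have hfin := finite_mahlerMeasure_le d₀ 2
  obtain ⟨F, hF⟩ : ∃ F : Finset ℤ[X], ∀ f, f ∈ F ↔ (f.natDegree ≤ d₀ ∧ MM f ≤ 2) ∧ 1 < MM f := by
    have h2 : Set.Finite {f : ℤ[X] | (f.natDegree ≤ d₀ ∧ MM f ≤ 2) ∧ 1 < MM f} :=
      hfin.subset fun f hf => by
        have h3 : (f.natDegree ≤ d₀ ∧ MM f ≤ 2) ∧ 1 < MM f := hf
        exact h3.1
    exact ⟨h2.toFinset, fun f => by simp⟩
  have hgt : ∀ f : ℤ[X], f.Monic → Irreducible f → ∀ x : ℂ, aeval x f = 0 → x ≠ 0 →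
      (∀ N : ℕ, 0 < N → x ^ N ≠ 1) → 1 < MM f := by
    intro f hf hirr x hx hx0 hroot
    have h1 : 1 ≤ MM f := one_le_mahlerMeasure_of_ne_zero hf.ne_zero
    rcases h1.lt_or_eq with h | h
    · exact h
    · exfalso
      obtain ⟨m, hm, hm2⟩ := pow_eq_one_of_mahlerMeasure_eq_one (p := f) (z := x) h.symm hx0 (by
        rw [mem_aroots]
        exact ⟨hf.ne_zero, hx⟩)
      exact hroot m hm hm2
  by_cases hne : F.Nonempty
  · obtain ⟨g, hg, hmin⟩ := Finset.exists_min_image F MM hne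
    refine ⟨min 2 (MM g), lt_min (by norm_num) ((hF g).1 hg).2, ?_⟩
    intro f hf hirr hd x hx hx0 hroot
    have h1 := hgt f hf hirr x hx hx0 hroot
    by_cases h2 : MM f ≤ 2
    · exact (min_le_right _ _).trans (hmin f ((hF f).2 ⟨⟨hd, h2⟩, h1⟩))
    · exact (min_le_left _ _).trans (not_le.1 h2).le
  · refine ⟨2, by norm_num, ?_⟩
    intro f hf hirr hd x hx hx0 hroot
    have h1 := hgt f hf hirr x hx hx0 hroot
    by_contra h2
    exact hne ⟨f, (hF f).2 ⟨⟨hd, (not_le.1 h2).le⟩, h1⟩⟩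

end Pool.Agent.D0H65.MD
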