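import Pool.Agent.D0H56.MD.Defs2

/-! Project MD (helper56), module DIVI (helper65). -/

set_option autoImplicit false

open Module Polynomial NumberField Pool.Agent.H225R3.Marg Pool.Agent.D0H56.MD

namespace Pool.Agent.D0H65.MD

/-- In a division algebra of odd dimension over its centre a root of a quadratic polynomial with
central coefficients is central. -/
theorem quad_central {Z D : Type} [Field Z] [Ring D] [IsDomain D] [Algebra Z D]
    [FiniteDimensional Z D] (hodd : Odd (finrank Z D)) (b : D) (al be : Z)
    (hb : b * b = algebraMap Z D al * b + algebraMap Z D be) : ∃ c : Z, algebraMap Z D c = b := by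
  by_contra hcon
  obtain ⟨m, hm⟩ : ∃ m : Z[X], m = X ^ 2 - C al * X - C be := ⟨_, rfl⟩
  have hm2 : m = X ^ 2 - (C al * X + C be) := by rw [hm]; ring
  have hdeg : (C al * X + C be : Z[X]).degree < 2 := by
    refine lt_of_le_of_lt (degree_linear_le) ?_
    norm_num
  have hmon : m.Monic := by
    rw [hm2]
    exact monic_X_pow_sub (by exact_mod_cast hdeg)
  have hnd : m.natDegree = 2 := by
    rw [hm2]
    rw [natDegree_sub_eq_left_of_natDegree_lt, natDegree_X_pow]
    rw [natDegree_X_pow]
    refine lt_of_le_of_lt natDegree_linear_le ?_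
    norm_num
  have hroot : ∀ c : Z, ¬ m.IsRoot c := by
    intro c hc0
    rw [IsRoot.def, hm] at hc0
    simp only [eval_sub, eval_pow, eval_X, eval_mul, eval_C] at hc0
    have h1 : (b - algebraMap Z D c) * (b - algebraMap Z D (al - c)) = 0 := by
      have e : algebraMap Z D c * b = b * algebraMap Z D c := Algebra.commutes c b
      have e2 : algebraMap Z D al * b = b * algebraMap Z D al := Algebra.commutes al b
      have e3 : be = c ^ 2 - al * c := by linear_combination -hc0
      have e4 : algebraMap Z D be = algebraMap Z D c ^ 2 - algebraMap Z D c * algebraMap Z D al := by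
        rw [e3, map_sub, map_pow, map_mul, (Algebra.commutes al (algebraMap Z D c))]
      rw [mul_sub, sub_mul, sub_mul, hb, map_sub, mul_sub, mul_sub, e2, e4, e]
      noncomm_ring
    rcases mul_eq_zero.1 h1 with h | h
    · exact hcon ⟨c, (sub_eq_zero.1 h).symm⟩
    · exact hcon ⟨al - c, (sub_eq_zero.1 h).symm⟩
  have hirr : Irreducible m := by
    have h0 : m ≠ 0 := hmon.ne_zero
    exact (hmon.irreducible_iff_roots_eq_zero_of_degree_le_three (by rw [hnd]) (by rw [hnd]; norm_num)).2
      (Multiset.eq_zero_of_forall_notMem fun c hc => hroot c ((mem_roots h0).1 hc))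
  have hfact : Fact (Irreducible m) := ⟨hirr⟩
  have hker : ∀ a : Z[X], a ∈ Ideal.span {m} → (aeval b : Z[X] →ₐ[Z] D) a = 0 := by
    intro a ha
    obtain ⟨w, rfl⟩ := Ideal.mem_span_singleton'.1 ha
    rw [map_mul]
    have : aeval b m = 0 := by
      rw [hm]
      simp only [map_sub, map_pow, aeval_X, map_mul, aeval_C]
      rw [pow_two, hb]
      abel
    rw [this, mul_zero]
  let f : AdjoinRoot m →+* D := Ideal.Quotient.lift (Ideal.span {m})
    ((aeval b : Z[X] →ₐ[Z] D) : Z[X] →+* D) hker
  let modu : Module (AdjoinRoot m) D := Module.compHom D f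
  have htow : IsScalarTower Z (AdjoinRoot m) D := by
    refine ⟨fun z w d => ?_⟩
    show f (z • w) * d = z • (f w * d)
    have e : z • w = AdjoinRoot.mk m (C z) * w := by
      rw [Algebra.smul_def]
      rfl
    have e2 : f (AdjoinRoot.mk m (C z)) = algebraMap Z D z := by
      show (aeval b) (C z) = _
      rw [aeval_C]
    rw [e, map_mul, e2, Algebra.smul_def, mul_assoc]
  have h2 := Module.finrank_mul_finrank Z (AdjoinRoot m) D
  have h3 : finrank Z (AdjoinRoot m) = 2 := by
    rw [(AdjoinRoot.powerBasis hirr.ne_zero).finrank, AdjoinRoot.powerBasis_dim, hnd]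
  rw [h3] at h2
  rw [← h2] at hodd
  exact (Nat.not_odd_iff_even.2 (even_two_mul _)) hodd

theorem quad_aux {k D : Type} [Field k] [Ring D] [Algebra k D] (b : D) (p : k[X]) (hmon : p.Monic)
    (hpos : 0 < p.natDegree) (hlt : p.natDegree < 3) (h0 : aeval b p = 0) :
    ∃ al be : k, b * b = algebraMap k D al * b + algebraMap k D be := by
  have hd : p.natDegree = 1 ∨ p.natDegree = 2 := by omega
  have h1 : p.leadingCoeff = 1 := hmon
  rcases hd with hd | hd
  · rw [aeval_eq_sum_range, hd, Finset.sum_range_succ, Finset.sum_range_one] at h0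
    have h2 : p.coeff 1 = 1 := by rw [← hd]; exact h1
    rw [h2, one_smul, pow_one, pow_zero, Algebra.smul_def, mul_one] at h0
    have h3 : b = algebraMap k D (-p.coeff 0) := by
      rw [map_neg]
      exact eq_neg_of_add_eq_zero_right h0
    refine ⟨-p.coeff 0, 0, ?_⟩
    rw [map_zero, add_zero, ← h3]
  · rw [aeval_eq_sum_range, hd, Finset.sum_range_succ, Finset.sum_range_succ,
      Finset.sum_range_one] at h0
    have h2 : p.coeff 2 = 1 := by rw [← hd]; exact h1
    rw [h2, one_smul, pow_one, pow_zero, Algebra.smul_def, mul_one, Algebra.smul_def] at h0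
    refine ⟨-p.coeff 1, -p.coeff 0, ?_⟩
    rw [map_neg, map_neg, ← pow_two]
    have h3 := eq_neg_of_add_eq_zero_right h0
    rw [h3, neg_add, neg_mul, add_comm]

theorem center_aux {k D : Type} [Field k] [Ring D] [IsDomain D] [Algebra k D]
    [FiniteDimensional k D] {q : ℕ} (hq : Odd q)
    (hfin : finrank k D = finrank k (Subalgebra.center k D) * q) (b : D) (al be : k)
    (hb : b * b = algebraMap k D al * b + algebraMap k D be) : ∀ w : D, w * b = b * w := by
  have hdom : IsDomain (Subalgebra.center k D) := inferInstance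
  have hart : IsArtinianRing (Subalgebra.center k D) := IsArtinianRing.of_finite k _
  let fld : Field (Subalgebra.center k D) :=
    (IsArtinianRing.isField_of_isDomain (Subalgebra.center k D)).toField
  let algZ : Algebra (Subalgebra.center k D) D :=
    { smul := fun c x => (c : D) * x
      algebraMap := ((Subalgebra.center k D).val : Subalgebra.center k D →+* D)
      commutes' := fun c x => (Subalgebra.mem_center_iff.1 c.2 x).symm
      smul_def' := fun c x => rfl }
  have hsc : IsScalarTower k (Subalgebra.center k D) D :=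
    ⟨fun c z d => by
      show ((c • z : Subalgebra.center k D) : D) * d = c • ((z : D) * d)
      rw [Subalgebra.coe_smul, smul_mul_assoc]⟩
  have hfdZ : FiniteDimensional (Subalgebra.center k D) D :=
    Module.Finite.of_restrictScalars_finite k _ _
  have htow := Module.finrank_mul_finrank k (Subalgebra.center k D) D
  have hZD : finrank (Subalgebra.center k D) D = q := by
    have hpos : 0 < finrank k (Subalgebra.center k D) := Module.finrank_pos
    rw [hfin] at htow
    exact Nat.eq_of_mul_eq_mul_left hpos htow
  obtain ⟨c, hc⟩ := quad_central (Z := Subalgebra.center k D) (D := D) (by rw [hZD]; exact hq) b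
    (algebraMap k _ al) (algebraMap k _ be) hb
  intro w
  have h1 := Subalgebra.mem_center_iff.1 c.2 w
  have h2 : (c : D) = b := hc
  rw [h2] at h1
  exact h1

theorem t_DIVI : S_DIVI := by
  intro k _ _ n D hD a ha hcent x hx N hN
  obtain ⟨hdiv, -, q, hq, hfin⟩ := hD
  by_contra hlt
  push Not at hlt
  have hn : Nonempty (Fin n) := by
    by_contra hcon
    rw [not_nonempty_iff] at hcon
    rw [Matrix.charpoly, Matrix.det_isEmpty, IsRoot.def, eval_one] at hx
    exact one_ne_zero hx
  have hnt : Nontrivial (Matrix (Fin n) (Fin n) k) := inferInstance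
  have hntD : Nontrivial D := inferInstance
  have hndz : NoZeroDivisors D := by
    refine ⟨fun {u v} huv => ?_⟩
    by_contra hcon
    push Not at hcon
    obtain ⟨hu, hv⟩ := hcon
    have hv' : (v : Matrix (Fin n) (Fin n) k) ≠ 0 := fun h => hv (Subtype.ext h)
    obtain ⟨w, hw, hvw⟩ := hdiv v v.2 hv'
    apply hu
    have h1 : (u : Matrix (Fin n) (Fin n) k) * v = 0 := congrArg Subtype.val huv
    apply Subtype.ext
    calc (u : Matrix (Fin n) (Fin n) k) = u * (v * w) := by rw [hvw, mul_one]
      _ = 0 := by rw [← mul_assoc, h1, zero_mul]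
  have hdomD : IsDomain D := { hndz, hntD with }
  obtain ⟨b, hb⟩ : ∃ b : D, b = ⟨a, ha⟩ ^ N := ⟨_, rfl⟩
  have hbv : (b : Matrix (Fin n) (Fin n) k) = a ^ N := by rw [hb]; rfl
  have hbint : IsIntegral k b := Algebra.IsIntegral.isIntegral b
  have hirr : Irreducible (minpoly k b) := minpoly.irreducible hbint
  -- `x ^ N` is a root of the minimal polynomial
  have hev : aeval (x ^ N) (minpoly k b) = 0 := by
    obtain ⟨a', ha'⟩ : ∃ a' : Matrix (Fin n) (Fin n) (AlgebraicClosure k),
      a' = a.map (algebraMap k (AlgebraicClosure k)) := ⟨_, rfl⟩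
    rw [← ha', ← Matrix.mem_spectrum_iff_isRoot_charpoly] at hx
    obtain ⟨P, hP⟩ : ∃ P : (AlgebraicClosure k)[X],
      P = ((minpoly k b).map (algebraMap k (AlgebraicClosure k))).comp (X ^ N) := ⟨_, rfl⟩
    have h1 : aeval a' P = 0 := by
      have e1 : a' ^ N = (algebraMap k (AlgebraicClosure k)).mapMatrix (a ^ N) := by
        rw [map_pow, ha']
        rfl
      rw [hP, aeval_comp, map_pow, aeval_X, aeval_map_algebraMap, e1]
      have e2 : (algebraMap k (AlgebraicClosure k)).mapMatrix (a ^ N)
          = (Algebra.ofId k (AlgebraicClosure k)).mapMatrix (a ^ N) := rfl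
      rw [e2, aeval_algHom_apply, ← hbv]
      have e3 : aeval (b : Matrix (Fin n) (Fin n) k) (minpoly k b) = 0 := by
        have := minpoly.aeval k b
        have e4 : aeval (D.val b) (minpoly k b) = D.val (aeval b (minpoly k b)) :=
          aeval_algHom_apply D.val b _
        rw [this, map_zero] at e4
        exact e4
      rw [e3, map_zero]
    have h2 : eval x P ∈ spectrum (AlgebraicClosure k) (aeval a' P) :=
      spectrum.subset_polynomial_aeval a' P ⟨x, hx, rfl⟩
    rw [h1, spectrum.zero_eq, Set.mem_singleton_iff, hP, eval_comp, eval_pow, eval_X,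
      eval_map_algebraMap] at h2
    exact h2
  have hmp : minpoly k (x ^ N) = minpoly k b :=
    (minpoly.eq_of_irreducible_of_monic hirr hev (minpoly.monic hbint)).symm
  rw [hmp] at hlt
  -- `b` is a root of a polynomial of degree 2
  obtain ⟨al, be, hq2⟩ := quad_aux b (minpoly k b) (minpoly.monic hbint)
    (minpoly.natDegree_pos hbint) hlt (minpoly.aeval k b)
  obtain ⟨b', hb', hne⟩ := hcent N hN
  apply hne
  have h1 := center_aux hq hfin b al be hq2 ⟨b', hb'⟩
  have h3 : b' * (b : Matrix (Fin n) (Fin n) k) = b * b' := congrArg Subtype.val h1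
  rw [← hbv, h3]

end Pool.Agent.D0H65.MD
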