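import Pool.Agent.D0H56.MD.Defs2

/-! Project MD (helper56), modules EXT and PAIR (helper65). -/

set_option autoImplicit false

open Module Polynomial NumberField Pool.Agent.H225R3.Marg Pool.Agent.D0H56.MD

namespace Pool.Agent.D0H65.MD

theorem ext_emb {k : Type} [Field k] [NumberField k] (σ : k →+* ℂ) :
    ∃ φ : AlgebraicClosure k →+* ℂ, φ.comp (algebraMap k (AlgebraicClosure k)) = σ := by
  let alg : Algebra k ℂ := σ.toAlgebra
  let φ : AlgebraicClosure k →ₐ[k] ℂ := IsAlgClosed.lift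
  exact ⟨φ, RingHom.ext fun x => φ.commutes x⟩

theorem mp_emb {k : Type} [Field k] [NumberField k] (φ : AlgebraicClosure k →+* ℂ)
    (x : AlgebraicClosure k) : minpoly ℚ (φ x) = minpoly ℚ x := by
  have h := minpoly.algHom_eq φ.toRatAlgHom φ.injective x
  exact h

theorem root_emb {k : Type} [Field k] [NumberField k] {n : ℕ} {A : Matrix (Fin n) (Fin n) (𝓞 k)}
    {σ : k →+* ℂ} {φ : AlgebraicClosure k →+* ℂ}
    (hφ : φ.comp (algebraMap k (AlgebraicClosure k)) = σ) {x : AlgebraicClosure k} :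
    (A.map (algebraMap (𝓞 k) (AlgebraicClosure k))).charpoly.IsRoot x ↔
    ((emb σ).mapMatrix A).charpoly.IsRoot (φ x) := by
  have h1 : (emb σ) = φ.comp (algebraMap (𝓞 k) (AlgebraicClosure k)) := by
    rw [← hφ]
    ext z
    rfl
  have h2 : (emb σ).mapMatrix A = φ.mapMatrix (A.map (algebraMap (𝓞 k) (AlgebraicClosure k))) := by
    rw [h1]
    ext i j
    rfl
  have h3 : ((emb σ).mapMatrix A).charpoly
      = (A.map (algebraMap (𝓞 k) (AlgebraicClosure k))).charpoly.map φ := by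
    rw [h2, ← Matrix.charpoly_map]
    rfl
  rw [h3, IsRoot.def, IsRoot.def, eval_map, eval₂_hom]
  exact (map_eq_zero φ).symm

theorem mi_emb {F G : Type} [Field F] [Field G] (φ : F →+* G) {x y : F} (h : MI x y) :
    MI (φ x) (φ y) := by
  obtain ⟨h1, h2, h3⟩ := h
  refine ⟨(map_ne_zero φ).2 h1, (map_ne_zero φ).2 h2, fun a b hab => h3 a b ?_⟩
  rw [← map_zpow₀, ← map_zpow₀, ← map_mul] at hab
  exact φ.injective (by rw [hab, map_one])

theorem t_EXT : S_EXT := by
  intro k _ _ σ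
  obtain ⟨φ, hφ⟩ := ext_emb σ
  refine ⟨φ, hφ, ?_, fun x y h => mi_emb φ h, fun n A x h => (root_emb hφ).1 h⟩
  intro x y hxy
  rw [mp_emb, mp_emb]
  obtain ⟨τ, hτ⟩ := (Normal.minpoly_eq_iff_mem_orbit (F := k) (E := AlgebraicClosure k)
      (x := y) (y := x)).1 hxy.symm
  have hτ' : τ x = y := hτ
  rw [← hτ']
  exact (minpoly.algEquiv_eq (τ.restrictScalars ℚ) x).symm

theorem t_PAIR : S_PAIR := by
  intro k _ _ n S A hA hS hnil
  -- an eigenvalue which is no root of unity
  have hinj : Function.Injective (algebraMap (𝓞 k) (AlgebraicClosure k)) :=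
    FaithfulSMul.algebraMap_injective _ _
  obtain ⟨x₀, hx₀, hnr⟩ : ∃ x₀ : AlgebraicClosure k,
      (A.map (algebraMap (𝓞 k) (AlgebraicClosure k))).charpoly.IsRoot x₀ ∧
      ∀ N : ℕ, 0 < N → x₀ ^ N ≠ 1 := by
    by_contra hcon
    push Not at hcon
    obtain ⟨N, hN, hN2⟩ := nilp_of_roots (algebraMap (𝓞 k) (AlgebraicClosure k)) hinj A (by
      intro l hl
      rw [← Matrix.charpoly_map] at hl
      exact hcon l hl)
    exact hnil N hN hN2
  have hint : IsIntegral ℤ x₀ := by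
    have h1 : IsIntegral (𝓞 k) x₀ := by
      refine ⟨A.charpoly, A.charpoly_monic, ?_⟩
      rw [← eval_map, ← Matrix.charpoly_map]
      exact hx₀
    exact isIntegral_trans (R := ℤ) (A := 𝓞 k) x₀ h1
  have hx00 : x₀ ≠ 0 := by
    rintro rfl
    rw [IsRoot.def, Matrix.charpoly_map, eval_map, eval₂_at_zero] at hx₀
    have h1 : A.charpoly.coeff 0 = 0 := hinj (by rw [hx₀, map_zero])
    have h2 : A.det = 0 := by
      rw [Matrix.det_eq_sign_charpoly_coeff, h1, mul_zero]
    have h3 : IsUnit A.det := (Matrix.isUnit_iff_isUnit_det A).1 hA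
    rw [h2] at h3
    exact not_isUnit_zero h3
  -- Kronecker
  obtain ⟨φ, hφ⟩ : ∃ φ : AlgebraicClosure k →+* ℂ, 1 < ‖φ x₀‖ := by
    by_contra hcon
    push Not at hcon
    have hki : IsIntegral k x₀ := (Algebra.IsAlgebraic.isAlgebraic x₀).isIntegral
    let L := IntermediateField.adjoin k {x₀}
    have hfd : FiniteDimensional k L := IntermediateField.adjoin.finiteDimensional hki
    have hfdQ : FiniteDimensional ℚ L := FiniteDimensional.trans ℚ k L
    have hnf : NumberField L := { to_finiteDimensional := hfdQ }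
    let xL : L := IntermediateField.AdjoinSimple.gen k x₀
    have hxL : (xL : AlgebraicClosure k) = x₀ := rfl
    have hiL : IsIntegral ℤ xL := by
      have := (isIntegral_algHom_iff (L.val.restrictScalars ℤ) L.val.injective (x := xL)).1
        (by exact hint)
      exact this
    obtain ⟨N, hN, hN2⟩ := NumberField.Embeddings.pow_eq_one_of_norm_le_one L ℂ
      (x := xL) (fun h => hx00 (by rw [← hxL, h]; rfl)) hiL (by
        intro ψ
        let algL : Algebra L ℂ := ψ.toAlgebra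
        let Φ : AlgebraicClosure k →ₐ[L] ℂ := IsAlgClosed.lift
        have h1 : Φ x₀ = ψ xL := Φ.commutes xL
        rw [← h1]
        exact hcon Φ)
    apply hnr N hN
    have := congrArg (fun z : L => (z : AlgebraicClosure k)) hN2
    rw [← hxL]
    simpa using this
  obtain ⟨σ₁, hσ₁⟩ : ∃ σ₁ : k →+* ℂ, φ.comp (algebraMap k (AlgebraicClosure k)) = σ₁ := ⟨_, rfl⟩
  have hroot := (root_emb (A := A) hσ₁).1 hx₀
  refine ⟨σ₁, ?_, φ x₀, hroot, hφ, ?_⟩
  · by_contra hcon
    exact hφ.ne' (hS σ₁ hcon _ hroot)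
  · intro σ₂ hσ₂
    obtain ⟨φ₂, hφ₂⟩ := ext_emb σ₂
    have hr2 := (root_emb (A := A) hφ₂).1 hx₀
    refine ⟨φ₂ x₀, hr2, by rw [mp_emb, mp_emb], ?_⟩
    refine ⟨(map_ne_zero φ).2 hx00, (map_ne_zero φ₂).2 hx00, fun a b hab => ?_⟩
    have hn2 : ‖φ₂ x₀‖ = 1 := hS σ₂ hσ₂ _ hr2
    have ha : a = 0 := by
      have h1 : ‖φ x₀‖ ^ a = 1 := by
        have := congrArg norm hab
        rw [norm_mul, norm_zpow, norm_zpow, hn2, one_zpow, mul_one, norm_one] at this
        exact this
      by_contra h0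
      exact (zpow_eq_one_iff_right₀ (norm_nonneg _) hφ.ne').1 h1 |> h0
    refine ⟨ha, ?_⟩
    rw [ha, zpow_zero, one_mul] at hab
    have h1 : x₀ ^ b = 1 := φ₂.injective (by rw [map_zpow₀, hab, map_one])
    by_contra h0
    rcases lt_or_gt_of_ne h0 with h | h
    · obtain ⟨m, hm⟩ : ∃ m : ℕ, b = -(m : ℤ) := ⟨(-b).toNat, by omega⟩
      refine hnr m (by omega) ?_
      rw [hm, zpow_neg, zpow_natCast, inv_eq_one] at h1
      exact h1
    · obtain ⟨m, hm⟩ : ∃ m : ℕ, b = (m : ℤ) := ⟨b.toNat, by omega⟩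
      refine hnr m (by omega) ?_
      rw [hm, zpow_natCast] at h1
      exact h1

end Pool.Agent.D0H65.MD
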