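import Pool.Agent.D0H56.MD.Defs3

/-! Project MD (helper56), module MEAS2 (helper65). -/

set_option autoImplicit false

open Module Polynomial NumberField Pool.Agent.H225R3.Marg Pool.Agent.D0H56.MD

namespace Pool.Agent.D0H65.MD

theorem cp_emb {k : Type} [Field k] [NumberField k] {n : ℕ} (A : Matrix (Fin n) (Fin n) (𝓞 k))
    (σ : k →+* ℂ) : ((emb σ).mapMatrix A).charpoly = A.charpoly.map (emb σ) := by
  rw [← Matrix.charpoly_map]; rfl

/-- The eigenvalues of an invertible integral matrix are units. -/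
theorem inv_int {k : Type} [Field k] [NumberField k] {n : ℕ} {A : Matrix (Fin n) (Fin n) (𝓞 k)}
    (hA : IsUnit A) {σ : k →+* ℂ} {x : ℂ} (hx : ((emb σ).mapMatrix A).charpoly.IsRoot x) :
    x ≠ 0 ∧ IsIntegral ℤ x ∧ IsIntegral ℤ x⁻¹ := by
  have key : ∀ (B : Matrix (Fin n) (Fin n) (𝓞 k)) (y : ℂ), ((emb σ).mapMatrix B).charpoly.IsRoot y →
      IsIntegral ℤ y := by
    intro B y hy
    rw [cp_emb, IsRoot.def, eval_map] at hy
    let alg : Algebra (𝓞 k) ℂ := (emb σ).toAlgebra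
    have h1 : IsIntegral (𝓞 k) y := ⟨B.charpoly, B.charpoly_monic, hy⟩
    have h2 : IsScalarTower ℤ (𝓞 k) ℂ := IsScalarTower.of_algebraMap_eq' (RingHom.ext_int _ _)
    exact isIntegral_trans y h1
  obtain ⟨U, rfl⟩ := hA
  have hspec : x ∈ spectrum ℂ ((emb σ).mapMatrix (U : Matrix (Fin n) (Fin n) (𝓞 k))) :=
    Matrix.mem_spectrum_iff_isRoot_charpoly.2 hx
  have hx0 : x ≠ 0 := by
    rintro rfl
    exact (spectrum.zero_notMem_iff _).mpr (U.isUnit.map (emb σ).mapMatrix) hspec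
  refine ⟨hx0, key _ _ hx, key (U⁻¹ : (Matrix (Fin n) (Fin n) (𝓞 k))ˣ) _ ?_⟩
  rw [← Matrix.mem_spectrum_iff_isRoot_charpoly]
  obtain ⟨V, hV⟩ : ∃ V : (Matrix (Fin n) (Fin n) ℂ)ˣ,
      V = Units.map ((emb σ).mapMatrix : Matrix (Fin n) (Fin n) (𝓞 k) →+*
        Matrix (Fin n) (Fin n) ℂ).toMonoidHom U := ⟨_, rfl⟩
  have e1 : (emb σ).mapMatrix (U : Matrix (Fin n) (Fin n) (𝓞 k)) = V := by rw [hV]; rfl
  have e2 : (emb σ).mapMatrix ((U⁻¹ : (Matrix (Fin n) (Fin n) (𝓞 k))ˣ) :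
      Matrix (Fin n) (Fin n) (𝓞 k)) = ((V⁻¹ : (Matrix (Fin n) (Fin n) ℂ)ˣ) : _) := by
    rw [hV, ← map_inv]; rfl
  rw [e1] at hspec
  rw [e2]
  obtain ⟨r, hr⟩ : ∃ r : ℂˣ, (r : ℂ) = x := ⟨Units.mk0 x hx0, rfl⟩
  rw [← hr] at hspec
  have h3 := spectrum.inv_mem_iff.1 hspec
  rw [Units.val_inv_eq_inv_val, hr] at h3
  exact h3

theorem t_MEAS2 : S_MEAS2 := by
  intro k _ _ n s S A hs hA hout σ₁ x hx hroot
  classical
  obtain ⟨hx0, hint, hinv⟩ := inv_int hA hx
  let alg : Algebra k ℂ := σ₁.toAlgebra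
  have hxk : IsIntegral k x := hint.tower_top
  let L := IntermediateField.adjoin k {x}
  have hfd : FiniteDimensional k L := IntermediateField.adjoin.finiteDimensional hxk
  have hchar : CharZero L := charZero_of_injective_algebraMap (algebraMap k L).injective
  have hnf : NumberField L := NumberField.of_module_finite k L
  let xL : L := ⟨x, IntermediateField.mem_adjoin_simple_self k x⟩
  let ι : L →+* ℂ := algebraMap L ℂ
  have hιx : ι xL = x := rfl
  have hιk : ι.comp (algebraMap k L) = σ₁ := rfl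
  have hxL0 : xL ≠ 0 := by
    intro h
    apply hx0
    rw [← hιx, h, map_zero]
  have hLint : IsIntegral ℤ xL := by
    have h1 : IsIntegral ℤ (ι xL) := hint
    exact (isIntegral_algHom_iff ι.toIntAlgHom ι.injective).1 h1
  have hLroot : ∀ N : ℕ, 0 < N → xL ^ N ≠ 1 := by
    intro N hN h
    apply hroot N hN
    rw [← hιx, ← map_pow, h, map_one]
  obtain ⟨g, hg⟩ : ∃ g : 𝓞 k →+* L, g = (algebraMap k L).comp (algebraMap (𝓞 k) k) := ⟨_, rfl⟩
  have hev : eval₂ g xL A.charpoly = 0 := by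
    apply ι.injective
    rw [map_zero, hom_eval₂, hιx]
    rw [cp_emb, IsRoot.def, eval_map] at hx
    have e : ι.comp g = emb σ₁ := by rw [hg]; rfl
    rw [e]
    exact hx
  have hτroot : ∀ τ : L →+* ℂ,
      ((emb (τ.comp (algebraMap k L))).mapMatrix A).charpoly.IsRoot (τ xL) := by
    intro τ
    rw [cp_emb, IsRoot.def, eval_map]
    have h2 : emb (τ.comp (algebraMap k L)) = τ.comp g := by rw [hg]; rfl
    rw [h2, ← hom_eval₂, hev, map_zero]
  have hτout : ∀ τ : L →+* ℂ, τ.comp (algebraMap k L) ∉ S → ‖τ xL‖ ≤ 1 :=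
    fun τ hτ => hout _ hτ _ (hτroot τ)
  obtain ⟨τ1, hτ1⟩ : ∃ τ1 : L →+* ℂ, 1 < ‖τ1 xL‖ := by
    by_contra hcon
    push Not at hcon
    obtain ⟨N, hN, h⟩ := NumberField.Embeddings.pow_eq_one_of_norm_le_one L ℂ hxL0 hLint hcon
    exact hLroot N hN h
  obtain ⟨τ0, -, hmax⟩ := Finset.exists_max_image (Finset.univ : Finset (L →+* ℂ))
    (fun τ => ‖τ xL‖) ⟨τ1, Finset.mem_univ _⟩
  have hτ0 : 1 < ‖τ0 xL‖ := hτ1.trans_le (hmax τ1 (Finset.mem_univ _))
  have hmem : τ0.comp (algebraMap k L) ∈ S := by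
    by_contra h
    exact absurd hτ0 (not_lt.mpr (hτout τ0 h))
  -- the minimal polynomial
  obtain ⟨f, hf⟩ : ∃ f : ℤ[X], f = minpoly ℤ x := ⟨_, rfl⟩
  have hmon : f.Monic := by rw [hf]; exact minpoly.monic hint
  have hirr : Irreducible f := by rw [hf]; exact minpoly.irreducible hint
  have haev : aeval x f = 0 := by rw [hf]; exact minpoly.aeval ℤ x
  have hfL : f = minpoly ℤ xL := by
    rw [hf, ← hιx]
    exact minpoly.algHom_eq ι.toIntAlgHom ι.injective xL
  have hmpQ : minpoly ℚ xL = f.map (algebraMap ℤ ℚ) := by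
    rw [hfL]
    exact minpoly.isIntegrallyClosed_eq_field_fractions' ℚ hLint
  have hnd : (minpoly ℚ xL).natDegree = f.natDegree := by
    rw [hmpQ, hmon.natDegree_map]
  have hdeg : finrank ℚ k ≤ f.natDegree * s := by
    have h1 := deg_bound (k := k) (L := L) S xL τ0 (by
      intro τ hτ
      by_contra hcon
      have h2 := hτout τ hcon
      rw [hτ] at h2
      exact absurd hτ0 (not_lt.2 h2))
    rw [hnd] at h1
    exact h1.trans (Nat.mul_le_mul_left _ hs)
  have hcoef : |f.coeff 0| = 1 := by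
    obtain ⟨g', hg'⟩ : ∃ g' : ℤ[X], g' = minpoly ℤ x⁻¹ := ⟨_, rfl⟩
    have h1 : aeval x⁻¹ g' = 0 := by rw [hg']; exact minpoly.aeval ℤ _
    have hgm : g'.Monic := by rw [hg']; exact minpoly.monic hinv
    have h2 : aeval x g'.reverse = 0 := by
      let inv : Invertible x⁻¹ := ⟨x, mul_inv_cancel₀ hx0, inv_mul_cancel₀ hx0⟩
      have h3 := (eval₂_reverse_eq_zero_iff (algebraMap ℤ ℂ) x⁻¹ g').2 h1
      exact h3
    have h3 : f ∣ g'.reverse := by
      rw [hf]
      exact minpoly.isIntegrallyClosed_dvd hint h2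
    obtain ⟨w, hw⟩ := h3
    have h4 : f.coeff 0 * w.coeff 0 = 1 := by
      rw [← mul_coeff_zero, ← hw, coeff_zero_reverse]
      exact hgm
    rcases Int.isUnit_iff.1 (isUnit_of_dvd_one ⟨_, h4.symm⟩) with h | h <;> rw [h] <;> norm_num
  refine ⟨f, hmon, hirr, hcoef, haev, hdeg, _, hmem, τ0 xL, hτroot τ0, hτ0, ?_⟩
  -- the Mahler measure
  obtain ⟨F, hF⟩ : ∃ F : ℂ[X], F = f.map (Int.castRingHom ℂ) := ⟨_, rfl⟩
  have hFmon : F.Monic := by rw [hF]; exact hmon.map _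
  have hFQ : F = (minpoly ℚ xL).map (algebraMap ℚ ℂ) := by
    rw [hmpQ, Polynomial.map_map, hF]
    congr 1
  have hLQ : IsIntegral ℚ xL := hLint.tower_top
  have hsep : F.Separable := by
    rw [hFQ]
    exact (minpoly.irreducible hLQ).separable.map
  have hnodup : F.roots.Nodup := nodup_roots hsep
  have hmm : MM f = ∏ r ∈ F.roots.toFinset, max 1 ‖r‖ := by
    rw [MM, ← hF, mahlerMeasure_eq_leadingCoeff_mul_prod_roots, hFmon.leadingCoeff, norm_one,
      one_mul, Finset.prod, Multiset.toFinset_val, Multiset.dedup_eq_self.2 hnodup]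
  have hrt : ∀ r ∈ F.roots.toFinset, ∃ τ : L →+* ℂ, τ xL = r := by
    intro r hr
    rw [Multiset.mem_toFinset, mem_roots hFmon.ne_zero] at hr
    have h1 := NumberField.Embeddings.range_eval_eq_rootSet_minpoly L ℂ xL
    have h2 : r ∈ (minpoly ℚ xL).rootSet ℂ := by
      rw [mem_rootSet]
      refine ⟨minpoly.ne_zero hLQ, ?_⟩
      rw [aeval_def, ← eval_map, ← hFQ]
      exact hr
    rw [← h1] at h2
    exact h2
  have hle : ∀ r ∈ F.roots.toFinset, ‖r‖ ≤ ‖τ0 xL‖ := by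
    intro r hr
    obtain ⟨τ, rfl⟩ := hrt r hr
    exact hmax τ (Finset.mem_univ _)
  obtain ⟨R', hR'⟩ : ∃ R' : Finset ℂ, R' = F.roots.toFinset.filter (fun r => 1 < ‖r‖) := ⟨_, rfl⟩
  have hprod : MM f = ∏ r ∈ R', max 1 ‖r‖ := by
    rw [hmm, hR', Finset.prod_filter]
    refine Finset.prod_congr rfl fun r hr => ?_
    by_cases h : 1 < ‖r‖
    · rw [if_pos h]
    · rw [if_neg h, max_eq_left (not_lt.1 h)]
  have hcard : R'.card ≤ s * n := by
    have h1 : R' ⊆ S.biUnion (fun σ => ((emb σ).mapMatrix A).charpoly.roots.toFinset) := by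
      intro r hr
      rw [hR', Finset.mem_filter] at hr
      obtain ⟨τ, hτ⟩ := hrt r hr.1
      have h2 : τ.comp (algebraMap k L) ∈ S := by
        by_contra hcon
        have h3 := hτout τ hcon
        rw [hτ] at h3
        exact absurd hr.2 (not_lt.2 h3)
      rw [Finset.mem_biUnion]
      refine ⟨_, h2, ?_⟩
      rw [Multiset.mem_toFinset, mem_roots (Matrix.charpoly_monic _).ne_zero, ← hτ]
      exact hτroot τ
    refine (Finset.card_le_card h1).trans ((Finset.card_biUnion_le_card_mul _ _ n ?_).trans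
      (Nat.mul_le_mul_right _ hs))
    intro σ hσ
    refine (Multiset.toFinset_card_le _).trans ((card_roots' _).trans ?_)
    rw [Matrix.charpoly_natDegree_eq_dim, Fintype.card_fin]
  rw [hprod]
  calc ∏ r ∈ R', max 1 ‖r‖ ≤ ∏ r ∈ R', ‖τ0 xL‖ := by
        refine Finset.prod_le_prod (fun r hr => by positivity) fun r hr => ?_
        rw [hR', Finset.mem_filter] at hr
        exact max_le hτ0.le (hle r hr.1)
    _ = ‖τ0 xL‖ ^ R'.card := by rw [Finset.prod_const]
    _ ≤ ‖τ0 xL‖ ^ (s * n) := pow_le_pow_right₀ hτ0.le hcard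

end Pool.Agent.D0H65.MD
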