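import Pool.Agent.D0H56.MD.Defs2

/-! Project MD (helper56), module TWO (helper65). -/

set_option autoImplicit false

open Module Polynomial NumberField Pool.Agent.H225R3.Marg Pool.Agent.D0H56.MD

namespace Pool.Agent.D0H65.MD

/-- Not a root of unity, with integer exponents. -/
theorem zpow_ne {F : Type} [Field F] {x : F} (h : ∀ N : ℕ, 0 < N → x ^ N ≠ 1) {a : ℤ}
    (ha : x ^ a = 1) : a = 0 := by
  by_contra h0
  rcases lt_or_gt_of_ne h0 with h1 | h1
  · obtain ⟨m, hm⟩ : ∃ m : ℕ, a = -(m : ℤ) := ⟨(-a).toNat, by omega⟩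
    refine h m (by omega) ?_
    rw [hm, zpow_neg, zpow_natCast, inv_eq_one] at ha
    exact ha
  · obtain ⟨m, hm⟩ : ∃ m : ℕ, a = (m : ℤ) := ⟨a.toNat, by omega⟩
    refine h m (by omega) ?_
    rw [hm, zpow_natCast] at ha
    exact ha

theorem step {k : Type} [Field k] [NumberField k] {x y : AlgebraicClosure k} (hx0 : x ≠ 0)
    (hx : ∀ N : ℕ, 0 < N → x ^ N ≠ 1) (hxy : minpoly k x = minpoly k y)
    (hmi : ¬ MI x y) : ∃ n : ℕ, 0 < n ∧ (y ^ n = x ^ n ∨ y ^ n = (x ^ n)⁻¹) := by
  obtain ⟨τ, hτ⟩ : ∃ τ : AlgebraicClosure k ≃ₐ[k] AlgebraicClosure k, τ x = y := by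
    have h1 : Algebra.IsAlgebraic k (AlgebraicClosure k) := inferInstance
    have := (Normal.minpoly_eq_iff_mem_orbit (F := k) (E := AlgebraicClosure k) (x := y) (y := x)).1 hxy.symm
    obtain ⟨τ, hτ⟩ := this
    exact ⟨τ, hτ⟩
  have hy0 : y ≠ 0 := by
    rw [← hτ]
    simpa using hx0
  have hy : ∀ N : ℕ, 0 < N → y ^ N ≠ 1 := by
    intro N hN h
    rw [← hτ, ← map_pow] at h
    exact hx N hN (τ.injective (by rw [h, map_one]))
  have hab : ∃ a b : ℤ, x ^ a * y ^ b = 1 ∧ ¬ (a = 0 ∧ b = 0) := by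
    by_contra hcon
    push Not at hcon
    exact hmi ⟨hx0, hy0, fun a b h => hcon a b h⟩
  obtain ⟨a, b, hab, hne⟩ := hab
  -- the iterates
  have hit : ∀ i : ℕ, x ^ (a ^ i) = ((τ ^ i) x) ^ ((-b) ^ i) := by
    intro i
    induction i with
    | zero => simp
    | succ i ih =>
      have e1 : x ^ (a ^ (i + 1)) = (x ^ (a ^ i)) ^ a := by rw [pow_succ, zpow_mul]
      have e2 : ((τ ^ i) x) ^ a * ((τ ^ (i + 1)) x) ^ b = 1 := by
        have h1 := congrArg (τ ^ i) hab
        rw [map_mul, map_zpow₀, map_zpow₀, map_one, ← hτ] at h1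
        rw [pow_succ]
        exact h1
      have e3 : ((τ ^ i) x) ^ a = ((τ ^ (i + 1)) x) ^ (-b) := by
        rw [zpow_neg]
        exact eq_inv_of_mul_eq_one_left e2
      rw [e1, ih, ← zpow_mul, mul_comm, zpow_mul, e3, ← zpow_mul, ← pow_succ']
  -- the orbit is finite
  obtain ⟨r, hr, hrx⟩ : ∃ r : ℕ, 0 < r ∧ (τ ^ r) x = x := by
    have hfin : Set.Finite ((minpoly k x).rootSet (AlgebraicClosure k)) := rootSet_finite _ _
    have hint : IsIntegral k x := (Algebra.IsAlgebraic.isAlgebraic x).isIntegral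
    have hmem : ∀ i : ℕ, (τ ^ i) x ∈ (minpoly k x).rootSet (AlgebraicClosure k) := by
      intro i
      rw [mem_rootSet]
      refine ⟨minpoly.ne_zero hint, ?_⟩
      rw [aeval_algHom_apply (τ ^ i : AlgebraicClosure k ≃ₐ[k] AlgebraicClosure k), minpoly.aeval,
        map_zero]
    obtain ⟨i, -, j, -, hij, he⟩ := Set.infinite_univ.exists_ne_map_eq_of_mapsTo
      (f := fun i : ℕ => (τ ^ i) x) (fun i _ => hmem i) hfin
    rcases lt_or_gt_of_ne hij with h | h
    · refine ⟨j - i, by omega, ?_⟩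
      apply (τ ^ i).injective
      have : (τ ^ i) ((τ ^ (j - i)) x) = (τ ^ (i + (j - i))) x := by rw [pow_add]; rfl
      rw [this, show i + (j - i) = j by omega]
      exact he.symm
    · refine ⟨i - j, by omega, ?_⟩
      apply (τ ^ j).injective
      have : (τ ^ j) ((τ ^ (i - j)) x) = (τ ^ (j + (i - j))) x := by rw [pow_add]; rfl
      rw [this, show j + (i - j) = i by omega]
      exact he
  have h1 := hit r
  rw [hrx] at h1
  have h2 : x ^ (a ^ r - (-b) ^ r) = 1 := by
    rw [zpow_sub₀ hx0, h1, div_self (zpow_ne_zero _ hx0)]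
  have h3 : a ^ r = (-b) ^ r := by
    have := zpow_ne hx h2
    omega
  have h4 : |a| = |b| := by
    have h5 : |a| ^ r = |b| ^ r := by
      rw [← abs_pow, h3, abs_pow, abs_neg]
    exact (pow_left_inj₀ (abs_nonneg a) (abs_nonneg b) hr.ne').1 h5
  have ha0 : a ≠ 0 := by
    intro h
    apply hne
    refine ⟨h, ?_⟩
    rw [h, abs_zero] at h4
    exact abs_eq_zero.1 h4.symm
  refine ⟨a.natAbs, Int.natAbs_pos.2 ha0, ?_⟩
  have key : ∀ m : ℕ, ∀ e d : ℤ, (e = m ∨ e = -m) → (d = m ∨ d = -m) → x ^ e * y ^ d = 1 →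
      (y ^ m = x ^ m ∨ y ^ m = (x ^ m)⁻¹) := by
    intro m e d he hd h
    have hxm : x ^ m ≠ 0 := pow_ne_zero _ hx0
    have hym : y ^ m ≠ 0 := pow_ne_zero _ hy0
    rcases he with rfl | rfl <;> rcases hd with rfl | rfl
    · right
      rw [zpow_natCast, zpow_natCast] at h
      exact eq_inv_of_mul_eq_one_right h
    · left
      rw [zpow_natCast, zpow_neg, zpow_natCast] at h
      field_simp at h
      exact h.symm
    · left
      rw [zpow_natCast, zpow_neg, zpow_natCast] at h
      field_simp at h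
      exact h
    · right
      rw [zpow_neg, zpow_natCast, zpow_neg, zpow_natCast] at h
      field_simp at h
      field_simp
      linear_combination -h
  refine key a.natAbs a b ?_ ?_ hab
  · rcases abs_choice a with h | h <;> omega
  · rcases abs_choice b with h | h <;> rcases abs_choice a with h' | h' <;> omega

theorem t_TWO : S_TWO := by
  intro k _ _ x hx0 hx hdep
  have hint : IsIntegral k x := (Algebra.IsAlgebraic.isAlgebraic x).isIntegral
  have hst : ∀ y : AlgebraicClosure k, minpoly k x = minpoly k y →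
      ∃ n : ℕ, 0 < n ∧ (y ^ n = x ^ n ∨ y ^ n = (x ^ n)⁻¹) :=
    fun y hy => step hx0 hx hy (hdep y hy)
  choose! n hn0 hn using hst
  obtain ⟨s, hs⟩ : ∃ s : Finset (AlgebraicClosure k), ∀ y, y ∈ s ↔ minpoly k x = minpoly k y := by
    have hfin : Set.Finite {y : AlgebraicClosure k | minpoly k x = minpoly k y} := by
      refine (rootSet_finite (minpoly k x) (AlgebraicClosure k)).subset ?_
      intro y hy
      rw [mem_rootSet]
      refine ⟨minpoly.ne_zero hint, ?_⟩
      have hy' : minpoly k x = minpoly k y := hy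
      rw [hy', minpoly.aeval]
    exact ⟨hfin.toFinset, fun y => by simp⟩
  obtain ⟨N, hN⟩ : ∃ N : ℕ, N = ∏ y ∈ s, n y := ⟨_, rfl⟩
  have hN0 : 0 < N := by
    rw [hN]
    exact Finset.prod_pos fun y hy => hn0 y ((hs y).1 hy)
  have hNy : ∀ y : AlgebraicClosure k, minpoly k x = minpoly k y →
      (y ^ N = x ^ N ∨ y ^ N = (x ^ N)⁻¹) := by
    intro y hy
    obtain ⟨m, hm⟩ : n y ∣ N := by
      rw [hN]
      exact Finset.dvd_prod_of_mem _ ((hs y).2 hy)
    rw [hm, pow_mul, pow_mul]
    rcases hn y hy with h | h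
    · left
      rw [h]
    · right
      rw [h, inv_pow]
  refine ⟨N, hN0, ?_⟩
  have hintN : IsIntegral k (x ^ N) := hint.pow N
  have hsep : (minpoly k (x ^ N)).Separable := (minpoly.irreducible hintN).separable
  have hspl : ((minpoly k (x ^ N)).map (algebraMap k (AlgebraicClosure k))).Splits :=
    IsAlgClosed.splits _
  rw [← card_rootSet_eq_natDegree hsep hspl, ← Nat.card_eq_fintype_card]
  have hsub : (minpoly k (x ^ N)).rootSet (AlgebraicClosure k) ⊆ {x ^ N, (x ^ N)⁻¹} := by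
    intro z hz
    rw [mem_rootSet] at hz
    have h1 : minpoly k (x ^ N) = minpoly k z :=
      minpoly.eq_of_irreducible_of_monic (minpoly.irreducible hintN) hz.2 (minpoly.monic hintN)
    obtain ⟨τ, hτ⟩ := (Normal.minpoly_eq_iff_mem_orbit (F := k) (E := AlgebraicClosure k)
      (x := z) (y := x ^ N)).1 h1.symm
    have h2 : z = (τ x) ^ N := by
      rw [← map_pow]
      exact hτ.symm
    have h3 : minpoly k x = minpoly k (τ x) := (minpoly.algEquiv_eq τ x).symm
    rcases hNy _ h3 with h | h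
    · rw [h2, h]
      exact Set.mem_insert _ _
    · rw [h2, h]
      exact Set.mem_insert_of_mem _ rfl
  have h4 : Set.ncard ((minpoly k (x ^ N)).rootSet (AlgebraicClosure k)) ≤ 2 :=
    (Set.ncard_le_ncard hsub (Set.toFinite _)).trans
      ((Set.ncard_insert_le _ _).trans (by rw [Set.ncard_singleton]))
  exact h4

end Pool.Agent.D0H65.MD
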