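import Pool.Agent.D0H56.MD.Defs5
import Pool.Agent.D0H65.MD.Deg

/-! Project MD (helper56), modules DEG4 and COMM (helper65). -/

set_option autoImplicit false

open Module Polynomial NumberField Pool.Agent.H225R3.Marg Pool.Agent.D0H56.MD

namespace Pool.Agent.D0H65.MD

theorem t_DEG4 : S_DEG4 := by
  intro k _ _ n A B σ₁ σ₂ x y hx hy
  obtain ⟨M, hM⟩ : ∃ M : IntermediateField ℚ ℂ,
    M = IntermediateField.adjoin ℚ (Set.range σ₁ ∪ Set.range σ₂) := ⟨_, rfl⟩
  have hM1 : ∀ w : k, σ₁ w ∈ M := fun w => by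
    rw [hM]
    exact IntermediateField.subset_adjoin _ _ (Or.inl ⟨w, rfl⟩)
  have hM2 : ∀ w : k, σ₂ w ∈ M := fun w => by
    rw [hM]
    exact IntermediateField.subset_adjoin _ _ (Or.inr ⟨w, rfl⟩)
  have hfd : FiniteDimensional ℚ M := by
    have e : M = σ₁.toRatAlgHom.fieldRange ⊔ σ₂.toRatAlgHom.fieldRange := by
      apply le_antisymm
      · rw [hM, IntermediateField.adjoin_le_iff]
        rintro z (⟨w, rfl⟩ | ⟨w, rfl⟩)
        · exact (le_sup_left : σ₁.toRatAlgHom.fieldRange ≤ _) ⟨w, rfl⟩
        · exact (le_sup_right : σ₂.toRatAlgHom.fieldRange ≤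
            σ₁.toRatAlgHom.fieldRange ⊔ σ₂.toRatAlgHom.fieldRange) ⟨w, rfl⟩
      · refine sup_le ?_ ?_
        · rintro z ⟨w, rfl⟩
          exact hM1 w
        · rintro z ⟨w, rfl⟩
          exact hM2 w
    have f1 : FiniteDimensional ℚ σ₁.toRatAlgHom.fieldRange :=
      LinearEquiv.finiteDimensional (AlgEquiv.ofInjectiveField σ₁.toRatAlgHom).toLinearEquiv
    have f2 : FiniteDimensional ℚ σ₂.toRatAlgHom.fieldRange :=
      LinearEquiv.finiteDimensional (AlgEquiv.ofInjectiveField σ₂.toRatAlgHom).toLinearEquiv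
    rw [e]
    infer_instance
  obtain ⟨ix, dx⟩ := deg_le A σ₁ x M hM1 hx
  obtain ⟨iy, dy⟩ := deg_le B σ₂ y M hM2 hy
  have gx : FiniteDimensional M (IntermediateField.adjoin M {x}) :=
    IntermediateField.adjoin.finiteDimensional ix
  have gy : FiniteDimensional M (IntermediateField.adjoin M {y}) :=
    IntermediateField.adjoin.finiteDimensional iy
  obtain ⟨N, hN⟩ : ∃ N : IntermediateField M ℂ,
    N = IntermediateField.adjoin M {x} ⊔ IntermediateField.adjoin M {y} := ⟨_, rfl⟩
  have f3 : finrank M N ≤ n * n := by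
    have := IntermediateField.finrank_sup_le (IntermediateField.adjoin M {x})
      (IntermediateField.adjoin M {y})
    rw [← hN, IntermediateField.adjoin.finrank ix, IntermediateField.adjoin.finrank iy] at this
    exact this.trans (Nat.mul_le_mul dx dy)
  have g1 : FiniteDimensional M N := by rw [hN]; infer_instance
  have g2 : FiniteDimensional ℚ N := FiniteDimensional.trans ℚ M N
  have f4 : finrank ℚ N ≤ n ^ 2 * finrank ℚ M := by
    rw [← Module.finrank_mul_finrank ℚ M N]
    calc finrank ℚ M * finrank M N ≤ finrank ℚ M * (n * n) := Nat.mul_le_mul_left _ f3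
      _ = _ := by ring
  unfold cdeg
  rw [← hM]
  refine le_trans ?_ f4
  have hle : IntermediateField.adjoin ℚ {x, y} ≤ N.restrictScalars ℚ := by
    rw [IntermediateField.adjoin_le_iff]
    rintro z (rfl | hz)
    · show z ∈ N
      rw [hN]
      exact (le_sup_left : IntermediateField.adjoin M {z} ≤ _)
        (IntermediateField.mem_adjoin_simple_self M z)
    · rw [Set.mem_singleton_iff] at hz
      rw [hz]
      show y ∈ N
      rw [hN]
      exact (le_sup_right : IntermediateField.adjoin M {y} ≤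
        IntermediateField.adjoin M {x} ⊔ IntermediateField.adjoin M {y})
        (IntermediateField.mem_adjoin_simple_self M y)
  have h3 : (IntermediateField.adjoin ℚ {x, y}).toSubalgebra.toSubmodule
      ≤ (N.restrictScalars ℚ).toSubalgebra.toSubmodule := hle
  have : FiniteDimensional ℚ ↥((N.restrictScalars ℚ).toSubalgebra.toSubmodule) :=
    inferInstanceAs (FiniteDimensional ℚ N)
  exact Submodule.finrank_mono h3

/-- a commutative finite-dimensional algebra without zero divisors embeds over `k` -/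
theorem comm_aux {k : Type} [Field k] {C : Type} [CommRing C] [IsDomain C]
    [Algebra k C] [FiniteDimensional k C] :
    ∃ φ : C →ₐ[k] AlgebraicClosure k, Function.Injective φ ∧ ∀ c : C, c ≠ 0 → IsUnit c := by
  have hF : IsField C := isField_of_isIntegral_of_isField' (R := k) (S := C) (Field.toIsField k)
  have hu : ∀ c : C, c ≠ 0 → IsUnit c := by
    intro c hc
    obtain ⟨b, hb⟩ := hF.mul_inv_cancel hc
    exact IsUnit.of_mul_eq_one b hb
  let φ : C →ₐ[k] AlgebraicClosure k := IsAlgClosed.lift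
  refine ⟨φ, ?_, hu⟩
  rw [injective_iff_map_eq_zero]
  intro c hc
  by_contra h
  have h1 := (hu c h).map φ
  rw [hc] at h1
  exact not_isUnit_zero h1

theorem t_COMM : S_COMM := by
  intro k _ _ n D hD A B hA hB hAB hn
  obtain ⟨S, hS⟩ : ∃ S : Set (Matrix (Fin n) (Fin n) k),
    S = {(A : Matrix (Fin n) (Fin n) k), (B : Matrix (Fin n) (Fin n) k)} := ⟨_, rfl⟩
  have hABm : (A : Matrix (Fin n) (Fin n) k) * B = (B : Matrix (Fin n) (Fin n) k) * A := by
    have := congrArg Units.val hAB
    simpa using this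
  have hcomm : ∀ a ∈ S, ∀ b ∈ S, a * b = b * a := by
    intro a ha b hb
    rw [hS] at ha hb
    rcases ha with rfl | ha <;> rcases hb with rfl | hb
    · rfl
    · rw [Set.mem_singleton_iff] at hb
      rw [hb]; exact hABm
    · rw [Set.mem_singleton_iff] at ha
      rw [ha]; exact hABm.symm
    · rw [Set.mem_singleton_iff] at ha hb
      rw [ha, hb]
  let _ : CommRing (Algebra.adjoin k S) := Algebra.adjoinCommRingOfComm k hcomm
  have hle : Algebra.adjoin k S ≤ D := by
    refine Algebra.adjoin_le ?_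
    intro a ha
    rw [hS] at ha
    rcases ha with rfl | ha
    · exact hA
    · rw [Set.mem_singleton_iff] at ha
      rw [ha]; exact hB
  have hne : Nonempty (Fin n) := ⟨⟨0, by omega⟩⟩
  have hnz : NoZeroDivisors (Algebra.adjoin k S) := by
    constructor
    intro a c hac
    by_cases ha : a = 0
    · exact Or.inl ha
    right
    have ha0 : (a : Matrix (Fin n) (Fin n) k) ≠ 0 := by
      intro h
      exact ha (Subtype.ext h)
    obtain ⟨b, -, hb⟩ := hD a (hle a.2) ha0
    have hb' : b * (a : Matrix (Fin n) (Fin n) k) = 1 := mul_eq_one_comm.mp hb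
    apply Subtype.ext
    have h1 : (a : Matrix (Fin n) (Fin n) k) * (c : Matrix (Fin n) (Fin n) k) = 0 :=
      congrArg Subtype.val hac
    calc (c : Matrix (Fin n) (Fin n) k) = (b * a) * c := by rw [hb', one_mul]
      _ = 0 := by rw [mul_assoc, h1, mul_zero]
  have hnt : Nontrivial (Algebra.adjoin k S) := inferInstance
  have hdom : IsDomain (Algebra.adjoin k S) := NoZeroDivisors.to_isDomain _
  have hfd : FiniteDimensional k (Algebra.adjoin k S) := inferInstance
  obtain ⟨φ, hφ, hu⟩ := comm_aux (k := k) (C := Algebra.adjoin k S)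
  obtain ⟨a, ha⟩ : ∃ a : Algebra.adjoin k S, (a : Matrix (Fin n) (Fin n) k) = A :=
    ⟨⟨A, Algebra.subset_adjoin (by rw [hS]; exact Or.inl rfl)⟩, rfl⟩
  obtain ⟨b, hb⟩ : ∃ b : Algebra.adjoin k S, (b : Matrix (Fin n) (Fin n) k) = B :=
    ⟨⟨B, Algebra.subset_adjoin (by rw [hS]; exact Or.inr rfl)⟩, rfl⟩
  have hne0 : ∀ (U : (Matrix (Fin n) (Fin n) k)ˣ) (c : Algebra.adjoin k S),
      (c : Matrix (Fin n) (Fin n) k) = U → c ≠ 0 := by
    intro U c hc h0
    rw [h0] at hc
    exact U.ne_zero hc.symm
  obtain ⟨ua, hua⟩ := hu a (hne0 A a ha)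
  obtain ⟨ub, hub⟩ := hu b (hne0 B b hb)
  have hroot : ∀ (U : Matrix (Fin n) (Fin n) k) (c : Algebra.adjoin k S),
      (c : Matrix (Fin n) (Fin n) k) = U →
      (U.map (algebraMap k (AlgebraicClosure k))).charpoly.IsRoot (φ c) := by
    intro U c hc
    have h1 : aeval c U.charpoly = 0 := by
      apply Subtype.ext
      have h2 : ((aeval c U.charpoly : Algebra.adjoin k S) : Matrix (Fin n) (Fin n) k) =
          aeval (c : Matrix (Fin n) (Fin n) k) U.charpoly :=
        (aeval_algHom_apply (Algebra.adjoin k S).val c U.charpoly).symm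
      rw [h2, hc]
      exact Matrix.aeval_self_charpoly U
    have h3 : aeval (φ c) U.charpoly = 0 := by
      rw [aeval_algHom_apply, h1, map_zero]
    rw [IsRoot.def]
    have h4 : (U.map (algebraMap k (AlgebraicClosure k))).charpoly =
        U.charpoly.map (algebraMap k (AlgebraicClosure k)) :=
      Matrix.charpoly_map U (algebraMap k (AlgebraicClosure k))
    rw [h4, eval_map]
    exact h3
  refine ⟨φ a, φ b, hroot _ a ha, hroot _ b hb, fun p q hpq => ?_⟩
  have h1 : φ (((ua ^ p * ub ^ q : (Algebra.adjoin k S)ˣ)) : Algebra.adjoin k S) = 1 := by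
    have h2 : (((Units.map (φ : Algebra.adjoin k S →* AlgebraicClosure k) (ua ^ p * ub ^ q)) :
        (AlgebraicClosure k)ˣ) : AlgebraicClosure k) = 1 := by
      rw [map_mul, map_zpow, map_zpow, Units.val_mul, Units.val_zpow_eq_zpow_val,
        Units.val_zpow_eq_zpow_val]
      have h3 : ((Units.map (φ : Algebra.adjoin k S →* AlgebraicClosure k) ua :
        (AlgebraicClosure k)ˣ) : AlgebraicClosure k) = φ a := by rw [← hua]; rfl
      have h4 : ((Units.map (φ : Algebra.adjoin k S →* AlgebraicClosure k) ub :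
        (AlgebraicClosure k)ˣ) : AlgebraicClosure k) = φ b := by rw [← hub]; rfl
      rw [h3, h4, hpq]
    exact h2
  have h5 : (((ua ^ p * ub ^ q : (Algebra.adjoin k S)ˣ)) : Algebra.adjoin k S) = 1 := by
    apply hφ
    rw [h1, map_one]
  have h6 : ua ^ p * ub ^ q = 1 := Units.ext h5
  have hmA : Units.map ((Algebra.adjoin k S).val : Algebra.adjoin k S →* Matrix (Fin n) (Fin n) k) ua
      = A := Units.ext (by rw [← ha, ← hua]; rfl)
  have hmB : Units.map ((Algebra.adjoin k S).val : Algebra.adjoin k S →* Matrix (Fin n) (Fin n) k) ub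
      = B := Units.ext (by rw [← hb, ← hub]; rfl)
  rw [← hmA, ← hmB, ← map_zpow, ← map_zpow, ← map_mul, h6, map_one]

end Pool.Agent.D0H65.MD
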