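import Pool.Agent.D0H56.MD.Defs5

/-! Project MD (helper56), module ELT4 (helper65). -/

set_option autoImplicit false

open Module Polynomial NumberField Pool.Agent.H225R3.Marg Pool.Agent.D0H56.MD Filter

namespace Pool.Agent.D0H65.MD

theorem t_ELT4 (hE4 : S_E4) (hMEAS : S_MEAS2) (hDEG : S_DEG4) (hSMALL : S_SMALL) : S_ELT4 := by
  intro n s δ a hδ ha haδ
  obtain ⟨η, hη⟩ : ∃ η : ℝ, η = ((1 - 3 * δ) / 8 - a) := ⟨_, rfl⟩
  have hη0 : 0 < η := by rw [hη]; linarith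
  obtain ⟨d₀, hd₀⟩ := hE4 (δ + η) a (by linarith) ha (by rw [hη]; linarith)
  obtain ⟨s', hs'⟩ : ∃ s' : ℝ, s' = s + 1 := ⟨_, rfl⟩
  obtain ⟨n', hn'⟩ : ∃ n' : ℝ, n' = n + 1 := ⟨_, rfl⟩
  have hs1 : 1 ≤ s' := by
    have : (0 : ℝ) ≤ s := Nat.cast_nonneg s
    linarith
  have hn1 : 1 ≤ n' := by
    have : (0 : ℝ) ≤ n := Nat.cast_nonneg n
    linarith
  have hs0 : 0 < s' := by linarith
  have hn0 : 0 < n' := by linarith
  obtain ⟨d₁, hd₁⟩ : ∃ d₁ : ℕ, ∀ d : ℕ, d₁ ≤ d → n' ^ 2 * s' ^ (1 + δ) ≤ (d : ℝ) ^ η := by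
    have h1 : Tendsto (fun d : ℕ => (d : ℝ) ^ η) atTop atTop :=
      (tendsto_rpow_atTop hη0).comp tendsto_natCast_atTop_atTop
    exact eventually_atTop.1 (h1.eventually_ge_atTop _)
  obtain ⟨d₂, hd₂⟩ : ∃ d₂ : ℕ, d₂ = max (max d₀ d₁) 1 := ⟨_, rfl⟩
  have hd2 : 1 ≤ d₂ := by rw [hd₂]; exact le_max_right _ _
  obtain ⟨μ, hμ, hSM⟩ := hSMALL d₂
  have hlμ : 0 < Real.log μ := Real.log_pos hμ
  have hd2R : (1 : ℝ) ≤ d₂ := by exact_mod_cast hd2
  obtain ⟨c, hc⟩ : ∃ c : ℝ, c = min (1 / (s' ^ a * (s' * n')))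
    (Real.log μ / ((s' * n') * (d₂ * s') ^ a)) := ⟨_, rfl⟩
  have hc0 : 0 < c := by
    rw [hc]
    have : 0 < (d₂ : ℝ) * s' := by positivity
    exact lt_min (by positivity) (by positivity)
  refine ⟨c, hc0, ?_⟩
  intro k _ _ S₁ S₂ A B hS₁ hS₂ hA hB hout₁ hout₂ σ₁ σ₂ x y hcd hx hy hMI
  have hnrx : ∀ N : ℕ, 0 < N → x ^ N ≠ 1 := by
    intro N hN h
    have := (hMI.2.2 (N : ℤ) 0 (by rw [zpow_natCast, h, zpow_zero, mul_one])).1
    omega
  have hnry : ∀ N : ℕ, 0 < N → y ^ N ≠ 1 := by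
    intro N hN h
    have := (hMI.2.2 0 (N : ℤ) (by rw [zpow_natCast, h, zpow_zero, mul_one])).2
    omega
  obtain ⟨f, hfm, hfi, hf0, hfx, hdegf, σ, hσ, l, hl, hl1, hMMf⟩ :=
    hMEAS k n s S₁ A hS₁ hA hout₁ σ₁ x hx hnrx
  obtain ⟨g, hgm, hgi, hg0, hgy, hdegg, σ', hσ', l', hl', hl1', hMMg⟩ :=
    hMEAS k n s S₂ B hS₂ hB hout₂ σ₂ y hy hnry
  obtain ⟨m, hm⟩ : ∃ m : ℕ, m = finrank ℚ k := ⟨_, rfl⟩
  have hm1 : 1 ≤ m := by rw [hm]; exact finrank_pos
  rw [← hm] at hdegf hdegg hcd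
  rw [← hm]
  have hmR : (1 : ℝ) ≤ m := by exact_mod_cast hm1
  -- degrees
  have hmd : ∀ d : ℕ, m ≤ d * s → (m : ℝ) ≤ d * s' := by
    intro d hd
    have h1 : (m : ℝ) ≤ (d : ℝ) * s := by exact_mod_cast hd
    have h2 : (0 : ℝ) ≤ d := Nat.cast_nonneg d
    rw [hs']
    nlinarith
  -- logarithms
  have hlog : ∀ (h : ℤ[X]) (z : ℂ), h.Monic → 1 < ‖z‖ → MM h ≤ ‖z‖ ^ (s * n) →
      Real.log (MM h) ≤ (s' * n') * Real.log ‖z‖ := by
    intro h z hh hz hM
    have hll : 0 < Real.log ‖z‖ := Real.log_pos hz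
    have hpos : 0 < MM h := by
      have : 1 ≤ MM h := one_le_mahlerMeasure_of_ne_zero hh.ne_zero
      linarith
    have h1 : Real.log (MM h) ≤ Real.log (‖z‖ ^ (s * n)) := Real.log_le_log hpos hM
    rw [Real.log_pow] at h1
    refine h1.trans ?_
    refine mul_le_mul_of_nonneg_right ?_ hll.le
    rw [hs', hn']
    push_cast
    have h2 : (0 : ℝ) ≤ s := Nat.cast_nonneg s
    have h3 : (0 : ℝ) ≤ n := Nat.cast_nonneg n
    nlinarith
  have hlf := hlog f l hfm hl1 hMMf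
  have hlg := hlog g l' hgm hl1' hMMg
  obtain ⟨d, hd⟩ : ∃ d : ℕ, d = min f.natDegree g.natDegree := ⟨_, rfl⟩
  have hdf : d ≤ f.natDegree := by rw [hd]; exact min_le_left _ _
  have hdg : d ≤ g.natDegree := by rw [hd]; exact min_le_right _ _
  have hmd' : (m : ℝ) ≤ d * s' := by
    rcases le_total f.natDegree g.natDegree with h | h
    · rw [hd, min_eq_left h]; exact hmd _ hdegf
    · rw [hd, min_eq_right h]; exact hmd _ hdegg
  have hd1 : 1 ≤ d := by
    by_contra h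
    have : d = 0 := by omega
    rw [this] at hmd'
    norm_num at hmd'
    linarith
  have hdR : (1 : ℝ) ≤ d := by exact_mod_cast hd1
  by_cases hcase : d₂ ≤ d
  · have h0 : d₀ ≤ d := by
      refine le_trans ?_ hcase
      rw [hd₂]
      exact (le_max_left _ _).trans (le_max_left _ _)
    have h1 : d₁ ≤ d := by
      refine le_trans ?_ hcase
      rw [hd₂]
      exact (le_max_right _ _).trans (le_max_left _ _)
    have hfin : (finrank ℚ (IntermediateField.adjoin ℚ {x, y}) : ℝ) ≤ (d : ℝ) ^ (1 + (δ + η)) := by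
      have h2 := hDEG k n A B σ₁ σ₂ x y hx hy
      have h3 : (finrank ℚ (IntermediateField.adjoin ℚ {x, y}) : ℝ) ≤ (n : ℝ) ^ 2 * cdeg σ₁ σ₂ := by
        exact_mod_cast h2
      refine h3.trans ?_
      have h4 : (n : ℝ) ^ 2 ≤ n' ^ 2 := by
        rw [hn']
        have : (0 : ℝ) ≤ n := Nat.cast_nonneg n
        nlinarith
      have h5 : (m : ℝ) ^ (1 + δ) ≤ s' ^ (1 + δ) * (d : ℝ) ^ (1 + δ) := by
        rw [← Real.mul_rpow hs0.le (by linarith)]
        exact Real.rpow_le_rpow (by linarith) (by linarith) (by linarith)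
      calc (n : ℝ) ^ 2 * cdeg σ₁ σ₂ ≤ n' ^ 2 * (m : ℝ) ^ (1 + δ) :=
            mul_le_mul h4 hcd (Nat.cast_nonneg _) (by positivity)
        _ ≤ n' ^ 2 * (s' ^ (1 + δ) * (d : ℝ) ^ (1 + δ)) := by gcongr
        _ = (n' ^ 2 * s' ^ (1 + δ)) * (d : ℝ) ^ (1 + δ) := by ring
        _ ≤ (d : ℝ) ^ η * (d : ℝ) ^ (1 + δ) := by
            refine mul_le_mul_of_nonneg_right (hd₁ d h1) ?_
            exact Real.rpow_nonneg (by linarith) _
        _ = (d : ℝ) ^ (1 + (δ + η)) := by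
            rw [← Real.rpow_add (by linarith)]
            congr 1
            ring
    have hE := hd₀ f g hfi hfm hf0 hgi hgm hg0 d h0 hdf hdg x y hfx hgy hMI hfin
    have h6 : (m : ℝ) ^ a ≤ (d : ℝ) ^ a * s' ^ a := by
      rw [← Real.mul_rpow (by linarith) hs0.le]
      exact Real.rpow_le_rpow (by linarith) hmd' ha
    have hsa : 0 < s' ^ a := Real.rpow_pos_of_pos hs0 a
    have h7 : c ≤ 1 / (s' ^ a * (s' * n')) := by rw [hc]; exact min_le_left _ _
    have hfinal : ∀ z : ℂ, (d : ℝ) ^ a ≤ (s' * n') * Real.log ‖z‖ →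
        c * (m : ℝ) ^ a ≤ Real.log ‖z‖ := by
      intro z hz
      calc c * (m : ℝ) ^ a ≤ 1 / (s' ^ a * (s' * n')) * ((d : ℝ) ^ a * s' ^ a) :=
            mul_le_mul h7 h6 (by positivity) (by positivity)
        _ = (d : ℝ) ^ a / (s' * n') := by field_simp
        _ ≤ Real.log ‖z‖ := by
            rw [div_le_iff₀ (by positivity)]
            linarith
    rcases le_max_iff.mp hE with h8 | h8
    · exact Or.inl ⟨σ, hσ, l, hl, hfinal l (h8.trans hlf)⟩
    · exact Or.inr ⟨σ', hσ', l', hl', hfinal l' (h8.trans hlg)⟩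
  · have hdd : (d : ℝ) ≤ d₂ := by
      have : d ≤ d₂ := by omega
      exact_mod_cast this
    have h3 : (m : ℝ) ≤ d₂ * s' := hmd'.trans (mul_le_mul_of_nonneg_right hdd hs0.le)
    have h6 : (m : ℝ) ^ a ≤ (d₂ * s') ^ a := Real.rpow_le_rpow (by linarith) h3 ha
    have hpos : 0 < (d₂ * s') ^ a := Real.rpow_pos_of_pos (by positivity) a
    have h7 : c ≤ Real.log μ / ((s' * n') * (d₂ * s') ^ a) := by rw [hc]; exact min_le_right _ _
    have hfinal : ∀ z : ℂ, Real.log μ ≤ (s' * n') * Real.log ‖z‖ →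
        c * (m : ℝ) ^ a ≤ Real.log ‖z‖ := by
      intro z hz
      calc c * (m : ℝ) ^ a ≤ Real.log μ / ((s' * n') * (d₂ * s') ^ a) * (d₂ * s') ^ a :=
            mul_le_mul h7 h6 (by positivity) (by positivity)
        _ = Real.log μ / (s' * n') := by field_simp
        _ ≤ Real.log ‖z‖ := by
            rw [div_le_iff₀ (by positivity)]
            linarith
    rcases le_total f.natDegree g.natDegree with h | h
    · have hdf' : f.natDegree ≤ d₂ := by
        rw [hd, min_eq_left h] at hcase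
        omega
      have h1 := hSM f hfm hfi hdf' x hfx hMI.1 hnrx
      have h2 : Real.log μ ≤ Real.log (MM f) := Real.log_le_log (by linarith) h1
      exact Or.inl ⟨σ, hσ, l, hl, hfinal l (h2.trans hlf)⟩
    · have hdg' : g.natDegree ≤ d₂ := by
        rw [hd, min_eq_right h] at hcase
        omega
      have h1 := hSM g hgm hgi hdg' y hgy hMI.2.1 hnry
      have h2 : Real.log μ ≤ Real.log (MM g) := Real.log_le_log (by linarith) h1
      exact Or.inr ⟨σ', hσ', l', hl', hfinal l' (h2.trans hlg)⟩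

end Pool.Agent.D0H65.MD
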