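import Pool.Agent.D0H56.MD.Defs3

/-! Project MD (helper56), module ELT2 (helper65). -/

set_option autoImplicit false

open Module Polynomial NumberField Pool.Agent.H225R3.Marg Pool.Agent.D0H56.MD Filter

namespace Pool.Agent.D0H65.MD

theorem t_ELT2 (hE2 : S_E2) (hMEAS : S_MEAS2) (hDEG : S_DEG) (hSMALL : S_SMALL) : S_ELT2 := by
  intro n s δ a hδ ha haδ
  obtain ⟨η, hη⟩ : ∃ η : ℝ, η = ((1 - 5 * δ) / 12 - a) := ⟨_, rfl⟩
  have hη0 : 0 < η := by rw [hη]; linarith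
  obtain ⟨d₀, hd₀⟩ := hE2 (δ + η) a (by linarith) ha (by rw [hη]; linarith)
  obtain ⟨s', hs'⟩ : ∃ s' : ℝ, s' = s + 1 := ⟨_, rfl⟩
  obtain ⟨n', hn'⟩ : ∃ n' : ℝ, n' = n + 1 := ⟨_, rfl⟩
  have hs1 : 1 ≤ s' := by
    have : (0 : ℝ) ≤ s := Nat.cast_nonneg s
    linarith
  have hn1 : 1 ≤ n' := by
    have : (0 : ℝ) ≤ n := Nat.cast_nonneg n
    linarith
  have hs0 : 0 < s' := by linarith
  have hn0 : 0 < n' := by linarith
  obtain ⟨d₁, hd₁⟩ : ∃ d₁ : ℕ, ∀ d : ℕ, d₁ ≤ d → n' ^ 2 * s' ^ (1 + δ) ≤ (d : ℝ) ^ η := by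
    have h1 : Tendsto (fun d : ℕ => (d : ℝ) ^ η) atTop atTop :=
      (tendsto_rpow_atTop hη0).comp tendsto_natCast_atTop_atTop
    exact eventually_atTop.1 (h1.eventually_ge_atTop _)
  obtain ⟨d₂, hd₂⟩ : ∃ d₂ : ℕ, d₂ = max (max d₀ d₁) 1 := ⟨_, rfl⟩
  have hd2 : 1 ≤ d₂ := by rw [hd₂]; exact le_max_right _ _
  obtain ⟨μ, hμ, hSM⟩ := hSMALL d₂
  have hlμ : 0 < Real.log μ := Real.log_pos hμ
  have hd2R : (1 : ℝ) ≤ d₂ := by exact_mod_cast hd2
  obtain ⟨c, hc⟩ : ∃ c : ℝ, c = min (1 / (s' ^ a * (s' * n')))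
    (Real.log μ / ((s' * n') * (d₂ * s') ^ a)) := ⟨_, rfl⟩
  have hc0 : 0 < c := by
    rw [hc]
    have : 0 < (d₂ : ℝ) * s' := by positivity
    exact lt_min (by positivity) (by positivity)
  refine ⟨c, hc0, ?_⟩
  intro k _ _ S A hS hA hout σ₁ σ₂ x y hcd hx hy hmp hMI
  have hnr : ∀ N : ℕ, 0 < N → x ^ N ≠ 1 := by
    intro N hN h
    have := (hMI.2.2 (N : ℤ) 0 (by rw [zpow_natCast, h, zpow_zero, mul_one])).1
    omega
  obtain ⟨f, hfm, hfi, hf0, hfx, hdeg, σ, hσ, l, hl, hl1, hMM⟩ := hMEAS k n s S A hS hA hout σ₁ x hx hnr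
  refine ⟨σ, hσ, l, hl, hl1, ?_⟩
  have hfy : aeval y f = 0 := by
    have h1 : minpoly ℚ x ∣ f.map (algebraMap ℤ ℚ) := minpoly.dvd ℚ x (by
      rw [aeval_map_algebraMap]; exact hfx)
    rw [hmp] at h1
    obtain ⟨w, hw⟩ := h1
    have h2 : aeval y (f.map (algebraMap ℤ ℚ)) = 0 := by
      rw [hw, map_mul, minpoly.aeval, zero_mul]
    rwa [aeval_map_algebraMap] at h2
  obtain ⟨d, hd⟩ : ∃ d : ℕ, d = f.natDegree := ⟨_, rfl⟩
  obtain ⟨m, hm⟩ : ∃ m : ℕ, m = finrank ℚ k := ⟨_, rfl⟩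
  have hm1 : 1 ≤ m := by rw [hm]; exact finrank_pos
  rw [← hd, ← hm] at hdeg
  rw [← hm] at hcd ⊢
  have hmR : (1 : ℝ) ≤ m := by exact_mod_cast hm1
  have hmd : (m : ℝ) ≤ d * s' := by
    have h1 : (m : ℝ) ≤ (d : ℝ) * s := by exact_mod_cast hdeg
    have h2 : (0 : ℝ) ≤ d := Nat.cast_nonneg d
    rw [hs']
    nlinarith
  have hd1 : 1 ≤ d := by
    by_contra h
    have : d = 0 := by omega
    rw [this] at hmd
    norm_num at hmd
    linarith
  have hdR : (1 : ℝ) ≤ d := by exact_mod_cast hd1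
  have hll : 0 < Real.log ‖l‖ := Real.log_pos hl1
  have hMMpos : 0 < MM f := by
    have : 1 ≤ MM f := one_le_mahlerMeasure_of_ne_zero hfm.ne_zero
    linarith
  have hlog : Real.log (MM f) ≤ (s' * n') * Real.log ‖l‖ := by
    have h1 : Real.log (MM f) ≤ Real.log (‖l‖ ^ (s * n)) := Real.log_le_log hMMpos hMM
    rw [Real.log_pow] at h1
    refine h1.trans ?_
    refine mul_le_mul_of_nonneg_right ?_ hll.le
    rw [hs', hn']
    push_cast
    have h2 : (0 : ℝ) ≤ s := Nat.cast_nonneg s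
    have h3 : (0 : ℝ) ≤ n := Nat.cast_nonneg n
    nlinarith
  by_cases hcase : d₂ ≤ d
  · have h0 : d₀ ≤ d := by
      refine le_trans ?_ hcase
      rw [hd₂]
      exact (le_max_left _ _).trans (le_max_left _ _)
    have h1 : d₁ ≤ d := by
      refine le_trans ?_ hcase
      rw [hd₂]
      exact (le_max_right _ _).trans (le_max_left _ _)
    have hfin : (finrank ℚ (IntermediateField.adjoin ℚ {x, y}) : ℝ) ≤ (d : ℝ) ^ (1 + (δ + η)) := by
      have h2 := hDEG k n A σ₁ σ₂ x y hx hy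
      have h3 : (finrank ℚ (IntermediateField.adjoin ℚ {x, y}) : ℝ) ≤ (n : ℝ) ^ 2 * cdeg σ₁ σ₂ := by
        exact_mod_cast h2
      refine h3.trans ?_
      have h4 : (n : ℝ) ^ 2 ≤ n' ^ 2 := by
        rw [hn']
        have : (0 : ℝ) ≤ n := Nat.cast_nonneg n
        nlinarith
      have h5 : (m : ℝ) ^ (1 + δ) ≤ s' ^ (1 + δ) * (d : ℝ) ^ (1 + δ) := by
        rw [← Real.mul_rpow hs0.le (by linarith)]
        exact Real.rpow_le_rpow (by linarith) (by linarith) (by linarith)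
      calc (n : ℝ) ^ 2 * cdeg σ₁ σ₂ ≤ n' ^ 2 * (m : ℝ) ^ (1 + δ) :=
            mul_le_mul h4 hcd (Nat.cast_nonneg _) (by positivity)
        _ ≤ n' ^ 2 * (s' ^ (1 + δ) * (d : ℝ) ^ (1 + δ)) := by gcongr
        _ = (n' ^ 2 * s' ^ (1 + δ)) * (d : ℝ) ^ (1 + δ) := by ring
        _ ≤ (d : ℝ) ^ η * (d : ℝ) ^ (1 + δ) := by
            refine mul_le_mul_of_nonneg_right (hd₁ d h1) ?_
            exact Real.rpow_nonneg (by linarith) _
        _ = (d : ℝ) ^ (1 + (δ + η)) := by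
            rw [← Real.rpow_add (by linarith)]
            congr 1
            ring
    have hE := hd₀ f hfi hfm hf0 (by rw [← hd]; exact h0) x y hfx hfy hMI (by rw [← hd]; exact hfin)
    rw [← hd] at hE
    have h6 : (m : ℝ) ^ a ≤ (d : ℝ) ^ a * s' ^ a := by
      rw [← Real.mul_rpow (by linarith) hs0.le]
      exact Real.rpow_le_rpow (by linarith) hmd ha
    have hsa : 0 < s' ^ a := Real.rpow_pos_of_pos hs0 a
    have h7 : c ≤ 1 / (s' ^ a * (s' * n')) := by rw [hc]; exact min_le_left _ _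
    calc c * (m : ℝ) ^ a ≤ 1 / (s' ^ a * (s' * n')) * ((d : ℝ) ^ a * s' ^ a) :=
          mul_le_mul h7 h6 (by positivity) (by positivity)
      _ = (d : ℝ) ^ a / (s' * n') := by field_simp
      _ ≤ Real.log ‖l‖ := by
          rw [div_le_iff₀ (by positivity)]
          linarith
  · have hxne : x ≠ 0 := hMI.1
    have h1 := hSM f hfm hfi (by rw [← hd]; omega) x hfx hxne hnr
    have h2 : Real.log μ ≤ Real.log (MM f) := Real.log_le_log (by linarith) h1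
    have hdd : (d : ℝ) ≤ d₂ := by
      have : d ≤ d₂ := by omega
      exact_mod_cast this
    have h3 : (m : ℝ) ≤ d₂ * s' := hmd.trans (mul_le_mul_of_nonneg_right hdd hs0.le)
    have h6 : (m : ℝ) ^ a ≤ (d₂ * s') ^ a := Real.rpow_le_rpow (by linarith) h3 ha
    have hpos : 0 < (d₂ * s') ^ a := Real.rpow_pos_of_pos (by positivity) a
    have h7 : c ≤ Real.log μ / ((s' * n') * (d₂ * s') ^ a) := by rw [hc]; exact min_le_right _ _
    calc c * (m : ℝ) ^ a ≤ Real.log μ / ((s' * n') * (d₂ * s') ^ a) * (d₂ * s') ^ a :=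
          mul_le_mul h7 h6 (by positivity) (by positivity)
      _ = Real.log μ / (s' * n') := by field_simp
      _ ≤ Real.log ‖l‖ := by
          rw [div_le_iff₀ (by positivity)]
          linarith

end Pool.Agent.D0H65.MD
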